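import Pool.Agent.H512.BT.Rad
import Pool.Agent.H512.BD.Cor

set_option autoImplicit false
set_option linter.unusedSectionVars false

/-!
MP_257582_lc. Several groups: the number of components.
-/

namespace Pool.Agent.H512.BT

open Finset
open Pool.Agent.H119R2.Kp (GP PV pve_map_adj)
open Pool.Agent.H119R2.Kp.RelAux (PV_iff)
open Pool.Agent.H512.BD (Ch clo clo_mono le_clo map_reach map_edist map_clo Comps clo_reach RadLE
  map_rad diam_rad)
open Pool.Agent.TH669.KP (GR GR_adj sgn bit bit_pos bit_neg bit_congr toggle_zero)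

variable {I : Type} {μ : I → ℕ} {A : I → Type} {ε : ℕ}

/-- the copy is in the tree of a root without inner pairs -/
inductive Lay (g : ∀ k : KK μ, Ch k.2) : KK μ → Prop
  | root {k : KK μ} (h : g k = none) : Lay g k
  | step {i : I} {s : Fin (μ i)} {t : {t : Fin (μ i) // t < s}} (h : g ⟨i, s⟩ = some (some t))
      (ht : Lay g ⟨i, t.1⟩) : Lay g ⟨i, s⟩

open Classical in
/-- the second coordinate in the copies of `A i` with `Lay`; the index of the group otherwise -/
noncomputable def lab (g : ∀ k : KK μ, Ch k.2) (i : I) :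
    VV μ A ε → Option (A i) ⊕ (I ⊕ Fin ε)
  | .inl ⟨j, (t, y)⟩ =>
      if h : j = i then .inl (if Lay g ⟨j, t⟩ then some (cast (by rw [h]) y) else none)
      else .inr (.inl j)
  | .inr l => .inr (.inr l)

theorem lab_same (g : ∀ k : KK μ, Ch k.2) (i : I) (t : Fin (μ i)) (y : A i) :
    lab (ε := ε) g i (vt i t y) = .inl (open Classical in if Lay g ⟨i, t⟩ then some y else none) := by
  simp [lab]

theorem lab_diff (g : ∀ k : KK μ, Ch k.2) {i j : I} (h : j ≠ i) (t : Fin (μ j)) (y : A j) :
    lab (ε := ε) g i (vt j t y) = .inr (.inl j) := by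
  simp [lab, h]

theorem Pg_lab (g : ∀ k : KK μ, Ch k.2) (i : I) :
    Pg A ε g ≤ Setoid.ker (lab (A := A) (ε := ε) g i) := by
  classical
  rw [Pg_le]
  rintro ⟨j, t⟩
  rcases hg : g ⟨j, t⟩ with _ | _ | t'
  · trivial
  · intro x y
    rw [Setoid.ker_def]
    by_cases hj : j = i
    · subst hj
      have h2 : ¬ Lay g ⟨j, t⟩ := by
        intro h
        cases h with
        | root h3 =>
          rw [hg] at h3
          cases h3
        | step h3 h4 =>
          rw [hg] at h3
          cases h3
      rw [lab_same, lab_same, if_neg h2, if_neg h2]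
    · rw [lab_diff _ hj, lab_diff _ hj]
  · intro x
    rw [Setoid.ker_def]
    by_cases hj : j = i
    · subst hj
      have h2 : Lay g ⟨j, t⟩ ↔ Lay g ⟨j, t'.1⟩ := by
        constructor
        · intro h
          cases h with
          | root h3 =>
            rw [hg] at h3
            cases h3
          | step h3 h4 =>
            rw [hg] at h3
            cases h3
            exact h4
        · exact fun h => Lay.step hg h
      rw [lab_same, lab_same]
      simp only [h2]
    · rw [lab_diff _ hj, lab_diff _ hj]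

theorem wt_all [Fintype I] {g : ∀ k : KK μ, Ch k.2} (h : ∀ k, g k ≠ none) :
    wt g = (-1) ^ Fintype.card (KK μ) := by
  unfold wt
  rw [Finset.prod_congr rfl fun k _ => if_neg (h k), Finset.prod_const, Finset.card_univ]

/-- all copies are attached to the first one -/
def g0 : ∀ k : KK μ, Ch k.2 := fun k =>
  if h : (⟨0, lt_of_le_of_lt (Nat.zero_le _) k.2.2⟩ : Fin (μ k.1)) < k.2 then
    some (some ⟨⟨0, lt_of_le_of_lt (Nat.zero_le _) k.2.2⟩, h⟩) else some none

theorem g0_Pg (i : I) (hi : 0 < μ i) (s : Fin (μ i)) (x y : A i) :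
    Pg A ε (g0 (μ := μ)) (vt i ⟨0, hi⟩ y) (vt i s x) := by
  have hc := (Pg_le (A := A) (ε := ε) (g := g0 (μ := μ))).1 le_rfl
  have h0 : ∀ x y : A i, Pg A ε (g0 (μ := μ)) (vt i ⟨0, hi⟩ x) (vt i ⟨0, hi⟩ y) := by
    have h1 := hc ⟨i, ⟨0, hi⟩⟩
    have h2 : g0 (μ := μ) ⟨i, ⟨0, hi⟩⟩ = some none := dif_neg (lt_irrefl _)
    rw [h2] at h1
    exact h1
  by_cases h : (⟨0, hi⟩ : Fin (μ i)) < s
  · have h1 := hc ⟨i, s⟩
    have h2 : g0 (μ := μ) ⟨i, s⟩ = some (some ⟨⟨0, hi⟩, h⟩) := dif_pos h
    rw [h2] at h1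
    exact (Pg A ε g0).trans (h0 y x) ((Pg A ε g0).symm (h1 x))
  · have h3 : s = ⟨0, hi⟩ := by
      apply Fin.ext
      have : ¬ (0 < s.1) := h
      show s.1 = 0
      omega
    subst h3
    exact h0 y x

theorem clo_edist {V : Type} {ρ : Setoid V} {u v : V} (h : (clo ρ).Reachable u v) :
    (clo ρ).edist u v ≤ 1 := by
  by_cases huv : u = v
  · subst huv
    simp [SimpleGraph.edist_self]
  · have h1 : ρ u v := by
      obtain ⟨p⟩ := h
      clear huv
      induction p with
      | nil => exact ρ.refl _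
      | cons h1 _ ih => exact ρ.trans h1.2 ih
    have h2 : (clo ρ).Adj u v := ⟨huv, h1⟩
    exact (SimpleGraph.edist_eq_one_iff_adj.2 h2).le

theorem main_V [Fintype I] [DecidableEq I] [∀ i, DecidableEq (A i)] [∀ i, AddCommGroup (A i)]
    [∀ i, Fintype (A i)] (hA : ∀ i, 3 ≤ Fintype.card (A i) ∨ μ i ≤ 1)
    (c : ∀ i, A i ≃+ A i)
    (htr : ∀ i, ∀ x y : A i, x ≠ 0 → y ≠ 0 → ∃ k : ℕ, (c i)^[k] x = y)
    {Q : SimpleGraph (VV μ A ε) → Prop}
    (hmono : ∀ G H, G ≤ H → Q G → Q H)
    (hε : ε ≤ 1) (hcl : ∀ G : SimpleGraph (VV μ A ε), (∀ u v, G.Reachable u v →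
      G.edist u v + 1 ≤ ((2 * ∑ i, μ i + ε : ℕ) : ℕ∞)) → RadLE (max (∑ i, μ i) 3) G →
      Q (clo G.reachableSetoid) → Q G)
    (h0 : Q (clo (Pg A ε g0)))
    (hN : ∀ g : ∀ k : KK μ, Ch k.2, (∃ k, g k = none) → ¬ Q (clo (Pg A ε g))) :
    ∑ χ : JJ μ ε → Bool, sgn χ * bit (Q (GC A χ)) ≠ 0 := by
  classical
  have hQ : ∀ χ : JJ μ ε → Bool, Q (GC A χ) ↔ Q (clo (GC A χ).reachableSetoid) := fun χ =>
    ⟨hmono _ _ (le_clo _), hcl _ (fun u v huv => diam_bound c htr χ huv) (GC_rad hA hε χ)⟩
  have h1 : ∑ χ : JJ μ ε → Bool, sgn χ * bit (Q (GC A χ)) =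
      ∑ g : ∀ k : KK μ, Ch k.2, wt g * bit (Q (clo (Pg A ε g))) := by
    rw [← rec_sum hA (fun ρ => bit (Q (clo ρ)))]
    refine Finset.sum_congr rfl fun χ _ => ?_
    rw [bit_congr (hQ χ)]
  have h2 : ∀ g : ∀ k : KK μ, Ch k.2, wt g * bit (Q (clo (Pg A ε g))) =
      (-1) ^ Fintype.card (KK μ) * bit (Q (clo (Pg A ε g))) := by
    intro g
    by_cases h : ∃ k, g k = none
    · rw [bit_neg (hN g h), mul_zero, mul_zero]
    · push Not at h
      rw [wt_all h]
  rw [h1, Finset.sum_congr rfl fun g _ => h2 g, ← Finset.mul_sum]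
  refine mul_ne_zero (pow_ne_zero _ (by norm_num)) (ne_of_gt ?_)
  refine lt_of_lt_of_le (show (0 : ℤ) < bit (Q (clo (Pg A ε (g0 (μ := μ))))) by
    rw [bit_pos h0]; norm_num) ?_
  refine Finset.single_le_sum (f := fun g : ∀ k : KK μ, Ch k.2 => bit (Q (clo (Pg A ε g))))
    (fun g _ => ?_) (Finset.mem_univ _)
  by_cases h : Q (clo (Pg A ε g))
  · simp only [bit_pos h]
    norm_num
  · simp only [bit_neg h]
    norm_num

theorem few {p n d k s ε : ℕ} [Fact p.Prime] {I : Type} [Fintype I] [DecidableEq I] [Nonempty I]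
    (μ a : I → ℕ) (hμ : ∀ i, 1 ≤ μ i) (ha : ∀ i, 1 ≤ a i)
    (hA : ∀ i, 3 ≤ p ^ a i ∨ μ i ≤ 1) (hε : ε ≤ 1) (hn : n = ∑ i, μ i * p ^ a i + ε)
    (hk : Fintype.card I + ε ≤ k) (hs : s ≤ n)
    (hks : ∀ i, n + k + 2 ≤ s + p ^ a i + Fintype.card I + ε)
    {P : SimpleGraph (Fin n) → Prop} (hP : GP n d P) (hd : d < n.choose 2)
    (hU : ∀ G : SimpleGraph (Fin n), (∀ u v, G.Reachable u v →
      G.edist u v + 1 ≤ ((2 * ∑ i, μ i + ε : ℕ) : ℕ∞)) → RadLE (max (∑ i, μ i) 3) G →
      Comps k s G → P G)
    (hL : ∀ G, P G → Comps k s G) : False := by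
  classical
  let B : ∀ i, Pool.Agent.W99.Tw.Blk p (p ^ a i) := fun i =>
    Classical.choice (Pool.Agent.W99.Tw.exists_blk p (a i))
  let A : I → Type := fun i => (B i).A
  let _ : ∀ i, AddCommGroup (A i) := fun i => (B i).grp
  let _ : ∀ i, Fintype (A i) := fun i => (B i).fin
  let c : ∀ i, A i ≃+ A i := fun i => (B i).c
  have hAc : ∀ i, Fintype.card (A i) = p ^ a i := fun i => (B i).card
  have hp : p.Prime := Fact.out
  have hnt : ∀ i, Nontrivial (A i) := fun i => by
    rw [← Fintype.one_lt_card_iff_nontrivial, hAc]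
    exact Nat.one_lt_pow (by have := ha i; omega) hp.one_lt
  have hV : Fintype.card (VV μ A ε) = n := by
    rw [Fintype.card_sum, Fintype.card_sigma, Fintype.card_fin, hn]
    congr 1
    refine Finset.sum_congr rfl fun i _ => ?_
    rw [Fintype.card_prod, Fintype.card_fin, hAc]
  let e : VV μ A ε ≃ Fin n := Fintype.equivFinOfCardEq hV
  have hM : 1 ≤ ∑ i, μ i := by
    obtain ⟨i⟩ : Nonempty I := inferInstance
    exact (hμ i).trans (Finset.single_le_sum (fun _ _ => Nat.zero_le _) (Finset.mem_univ i))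
  have hrel := relationC (μ := μ) (A := A) hε (fun i => (B i).tors) c (fun i => (B i).trans)
    hP hV hd
  refine main_V (μ := μ) (A := A) (ε := ε) (fun i => by rw [hAc]; exact hA i) c
    (fun i => (B i).trans) (Q := fun G => P (G.map e.toEmbedding)) ?_ hε ?_ ?_ ?_ ?_
  · intro G H hGH hG
    exact hP.mono _ _ (fun u v huv => by
      rw [pve_map_adj] at huv ⊢
      exact hGH huv) hG
  · intro G hG hR hc
    refine hU _ ?_ (map_rad e hR) ?_
    · intro u v huv
      obtain ⟨u, rfl⟩ := e.surjective u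
      obtain ⟨v, rfl⟩ := e.surjective v
      rw [map_edist]
      exact hG u v ((map_reach e G u v).1 huv)
    · refine Comps.congr (fun u v => ?_) (hL _ hc)
      rw [map_clo]
      exact clo_reach
  · refine hU _ ?_ (map_rad e (diam_rad fun u v huv => (clo_edist huv).trans (by
      have : 1 ≤ max (∑ i, μ i) 3 := le_max_of_le_right (by norm_num)
      exact_mod_cast this))) ?_
    · intro u v huv
      obtain ⟨u, rfl⟩ := e.surjective u
      obtain ⟨v, rfl⟩ := e.surjective v
      rw [map_edist]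
      refine (add_le_add (clo_edist ((map_reach e _ u v).1 huv)) le_rfl).trans ?_
      have : 1 + 1 ≤ 2 * ∑ i, μ i + ε := by omega
      exact_mod_cast this
    · have hne : ∀ i, Nonempty (A i) := fun i => inferInstance
      let D : I ⊕ Fin ε → Fin n := fun x => match x with
        | .inl i => e (vt i ⟨0, hμ i⟩ (hne i).some)
        | .inr l => e (.inr l)
      refine ⟨univ.image D, ?_, hs.trans ?_⟩
      · refine Finset.card_image_le.trans ?_
        rw [Finset.card_univ, Fintype.card_sum, Fintype.card_fin]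
        exact hk
      · have h1 : Nat.card (Fin n) ≤ Nat.card {v // ∃ w ∈ univ.image D,
            ((clo (Pg A ε (g0 (μ := μ)))).map e.toEmbedding).Reachable w v} := by
          refine Nat.card_le_card_of_injective (fun i : Fin n => ⟨i, ?_⟩) fun a b hab => ?_
          · obtain ⟨v, rfl⟩ := e.surjective i
            rcases v with ⟨i, s, x⟩ | l
            · refine ⟨D (.inl i), Finset.mem_image_of_mem _ (Finset.mem_univ _), ?_⟩
              show (SimpleGraph.map _ _).Reachable (e (vt i ⟨0, hμ i⟩ (hne i).some))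
                (e (vt i s x))
              rw [map_reach]
              by_cases h : (vt i ⟨0, hμ i⟩ (hne i).some : VV μ A ε) = vt i s x
              · rw [h]
              · have h2 : (clo (Pg A ε (g0 (μ := μ)))).Adj
                    (vt i ⟨0, hμ i⟩ (hne i).some) (vt i s x) := ⟨h, g0_Pg i _ s _ _⟩
                exact h2.reachable
            · exact ⟨D (.inr l), Finset.mem_image_of_mem _ (Finset.mem_univ _),
                SimpleGraph.Reachable.refl _⟩
          · simpa using hab
        rwa [Nat.card_eq_fintype_card (α := Fin n), Fintype.card_fin] at h1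
  · rintro g ⟨⟨i, s'⟩, hg⟩ hPg
    have hC := hL _ hPg
    have hne : ∀ i, Nonempty (A i) := fun i => inferInstance
    let R : A i ⊕ ({j : I // j ≠ i} ⊕ Fin ε) → VV μ A ε := fun x => match x with
      | .inl x => vt i s' x
      | .inr (.inl j) => vt j.1 ⟨0, hμ j.1⟩ (hne j.1).some
      | .inr (.inr l) => .inr l
    have hR : ∀ x y, (clo (Pg A ε g)).Reachable (R x) (R y) → x = y := by
      intro x y hxy
      have h1 : lab (ε := ε) g i (R x) = lab (ε := ε) g i (R y) := by
        refine Pool.Agent.H512.BD.const_reach (G := clo (Pg A ε g)) (F := lab g i) ?_ hxy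
        intro u v huv
        exact Pg_lab g i huv.2
      have hl : Lay g ⟨i, s'⟩ := Lay.root hg
      rcases x with x | j | l <;> rcases y with y | j' | l'
      · simp only [R, lab_same, if_pos hl, Sum.inl.injEq, Option.some.injEq] at h1
        rw [h1]
      · simp only [R, lab_same, lab_diff _ j'.2] at h1
        cases h1
      · simp only [R, lab_same] at h1
        cases h1
      · simp only [R, lab_same, lab_diff _ j.2] at h1
        cases h1
      · simp only [R, lab_diff _ j.2, lab_diff _ j'.2, Sum.inr.injEq, Sum.inl.injEq] at h1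
        rw [Subtype.ext h1]
      · simp only [R, lab_diff _ j.2] at h1
        cases h1
      · simp only [R, lab_same] at h1
        cases h1
      · simp only [R, lab_diff _ j'.2] at h1
        cases h1
      · simp only [R, lab, Sum.inr.injEq] at h1
        rw [h1]
    have hinj : Function.Injective fun x => e (R x) := by
      intro x y hxy
      have h2 : R x = R y := e.injective hxy
      exact hR x y (by rw [h2])
    have h3 := hC.count (q := p ^ a i + (Fintype.card I - 1) + ε) (univ.image fun x => e (R x)) (by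
      rw [Finset.card_image_of_injective _ hinj, Finset.card_univ, Fintype.card_sum,
        Fintype.card_sum, Fintype.card_fin, hAc, Fintype.card_subtype_compl,
        Fintype.card_subtype_eq]
      omega) (by
      intro u hu v hv huv
      obtain ⟨x, -, rfl⟩ := Finset.mem_image.1 hu
      obtain ⟨y, -, rfl⟩ := Finset.mem_image.1 hv
      rw [map_reach] at huv
      rw [hR x y huv])
    have h4 := hks i
    have h5 : 1 ≤ Fintype.card I := Fintype.card_pos
    omega
  · rw [← hrel]
    refine Finset.sum_congr rfl fun χ _ => ?_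
    rw [bit_congr (PV_iff hP e _)]

end Pool.Agent.H512.BT
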