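import Pool.Agent.H512.BD.Mob
import Pool.Graph.R_pool_sql_team_seeded_9f66d723.W99.Tw.Model

set_option autoImplicit false
set_option linter.unusedSectionVars false

/-!
MP_257582_lc. The vertex set consists of `μ i` copies of an abelian group `A i` for every `i`, and of at
most one further vertex. The group is generated by the translations, which act on all copies of the
same group simultaneously, and by the product of the automorphisms.
-/

namespace Pool.Agent.H512.BT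

open Finset
open Pool.Agent.H119R2.Kp (GP PV)
open Pool.Agent.TH669.KP (GR GR_adj rel_orb sgn bit bit_pos bit_neg bit_congr)

variable {I : Type} {μ : I → ℕ} {A : I → Type} {ε : ℕ}

/-- the copies -/
abbrev KK (μ : I → ℕ) : Type := Σ i, Fin (μ i)

/-- the vertices -/
abbrev VV (μ : I → ℕ) (A : I → Type) (ε : ℕ) : Type := (Σ i, Fin (μ i) × A i) ⊕ Fin ε

/-- the vertex `x` of the copy `s` of the group `A i` -/
abbrev vt (i : I) (s : Fin (μ i)) (x : A i) : VV μ A ε := .inl ⟨i, (s, x)⟩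

/-- the unordered pairs of different copies of the same group -/
abbrev ES (μ : I → ℕ) : Type := {e : Sym2 (KK μ) // ¬ e.IsDiag ∧ (e.map Sigma.fst).IsDiag}

/-- the unordered pairs of copies of different groups -/
abbrev ED (μ : I → ℕ) : Type := {e : Sym2 (KK μ) // ¬ (e.map Sigma.fst).IsDiag}

/-- the orbits of pairs -/
abbrev JJ (μ : I → ℕ) (ε : ℕ) : Type := KK μ ⊕ ((ES μ × Bool) ⊕ (ED μ ⊕ (KK μ × Fin ε)))

noncomputable instance instDJ : DecidableEq (JJ μ ε) := Classical.decEq _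

/-- the pair of two different copies of the same group -/
def ps (i : I) (s t : Fin (μ i)) (h : s ≠ t) : ES μ :=
  ⟨s(⟨i, s⟩, ⟨i, t⟩), by simpa using h, by simp⟩

/-- the pair of two copies of different groups -/
def pd (k l : KK μ) (h : k.1 ≠ l.1) : ED μ := ⟨s(k, l), by simpa using h⟩

theorem ps_exists (e : ES μ) : ∃ i s t, ∃ h : s ≠ t, e = ps i s t h := by
  obtain ⟨e, he, he'⟩ := e
  induction e using Sym2.ind with
  | _ k l =>
    obtain ⟨i, s⟩ := k
    obtain ⟨j, t⟩ := l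
    have hij : i = j := by simpa using he'
    subst hij
    exact ⟨i, s, t, by simpa using he, rfl⟩

theorem pd_exists (e : ED μ) : ∃ k l, ∃ h : k.1 ≠ l.1, e = pd k l h := by
  obtain ⟨e, he⟩ := e
  induction e using Sym2.ind with
  | _ k l => exact ⟨k, l, by simpa using he, rfl⟩

theorem ps_swap (i : I) (s t : Fin (μ i)) (h : s ≠ t) : ps i s t h = ps i t s h.symm := by
  unfold ps
  simp only [Subtype.mk.injEq]
  exact Sym2.eq_swap

theorem pd_swap (k l : KK μ) (h : k.1 ≠ l.1) : pd k l h = pd l k h.symm := by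
  unfold pd
  simp only [Subtype.mk.injEq]
  exact Sym2.eq_swap

variable [DecidableEq I] [∀ i, DecidableEq (A i)]

/-- the orbit of a pair -/
def orb : VV μ A ε → VV μ A ε → Option (JJ μ ε)
  | .inl ⟨i, (s, x)⟩, .inl ⟨j, (t, y)⟩ =>
      if h : (⟨i, s⟩ : KK μ) = ⟨j, t⟩ then
        (if (⟨i, x⟩ : Σ i, A i) = ⟨j, y⟩ then none else some (.inl ⟨i, s⟩))
      else if h' : i = j then
        some (.inr (.inl (⟨s(⟨i, s⟩, ⟨j, t⟩), by simpa using h, by simpa using h'⟩,
          decide ((⟨i, x⟩ : Σ i, A i) = ⟨j, y⟩))))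
      else some (.inr (.inr (.inl ⟨s(⟨i, s⟩, ⟨j, t⟩), by simpa using h'⟩)))
  | .inl ⟨i, (s, _)⟩, .inr l => some (.inr (.inr (.inr (⟨i, s⟩, l))))
  | .inr l, .inl ⟨i, (s, _)⟩ => some (.inr (.inr (.inr (⟨i, s⟩, l))))
  | .inr _, .inr _ => none

theorem orb_self (v : VV μ A ε) : orb v v = none := by
  rcases v with ⟨i, s, x⟩ | l
  · simp [orb]
  · rfl

theorem orb_same {i : I} {s : Fin (μ i)} {x y : A i} (h : x ≠ y) :
    orb (ε := ε) (vt i s x) (vt i s y) = some (.inl ⟨i, s⟩) := by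
  simp [orb, h]

theorem orb_in {i : I} {s t : Fin (μ i)} (h : s ≠ t) (x y : A i) :
    orb (ε := ε) (vt i s x) (vt i t y) = some (.inr (.inl (ps i s t h, decide (x = y)))) := by
  simp [orb, h, ps]

theorem orb_cr {i j : I} (h : i ≠ j) (s : Fin (μ i)) (t : Fin (μ j)) (x : A i) (y : A j) :
    orb (ε := ε) (vt i s x) (vt j t y) = some (.inr (.inr (.inl (pd ⟨i, s⟩ ⟨j, t⟩ h)))) := by
  have h1 : ¬ (⟨i, s⟩ : KK μ) = ⟨j, t⟩ := fun h2 => h (congrArg Sigma.fst h2)
  simp [orb, h, h1, pd]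

theorem orb_lr (i : I) (s : Fin (μ i)) (x : A i) (l : Fin ε) :
    orb (vt i s x) (.inr l) = some (.inr (.inr (.inr (⟨i, s⟩, l)))) := rfl

theorem orb_rl (i : I) (s : Fin (μ i)) (x : A i) (l : Fin ε) :
    orb (.inr l) (vt i s x) = some (.inr (.inr (.inr (⟨i, s⟩, l)))) := rfl

theorem orb_symm (u v : VV μ A ε) : orb u v = orb v u := by
  rcases u with ⟨i, s, x⟩ | l <;> rcases v with ⟨j, t, y⟩ | l'
  · by_cases hij : i = j
    · subst hij
      by_cases h : s = t
      · subst h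
        by_cases hxy : x = y
        · subst hxy; rfl
        · rw [orb_same hxy, orb_same (Ne.symm hxy)]
      · rw [orb_in h, orb_in (Ne.symm h), ps_swap]
        simp only [eq_comm]
    · rw [orb_cr hij, orb_cr (Ne.symm hij), pd_swap]
  · rfl
  · rfl
  · rfl

theorem orb_ne_none (hε : ε ≤ 1) (u v : VV μ A ε) (h : u ≠ v) : orb u v ≠ none := by
  rcases u with ⟨i, s, x⟩ | l <;> rcases v with ⟨j, t, y⟩ | l'
  · by_cases hij : i = j
    · subst hij
      by_cases h1 : s = t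
      · subst h1
        have hxy : x ≠ y := fun h2 => h (by rw [h2])
        rw [orb_same hxy]
        simp
      · rw [orb_in h1]
        simp
    · rw [orb_cr hij]
      simp
  · rw [orb_lr]
    simp
  · rw [orb_rl]
    simp
  · exfalso
    apply h
    congr 1
    exact Fin.ext (by omega)

/-- pairs of the first kind -/
theorem inv_in {u v : VV μ A ε} {k : KK μ} (h : orb u v = some (.inl k)) :
    ∃ x y : A k.1, x ≠ y ∧ u = vt k.1 k.2 x ∧ v = vt k.1 k.2 y := by
  rcases u with ⟨i, s, x⟩ | l <;> rcases v with ⟨j, t, y⟩ | l'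
  · by_cases hij : i = j
    · subst hij
      by_cases h1 : s = t
      · subst h1
        by_cases hxy : x = y
        · subst hxy
          rw [orb_self] at h
          cases h
        · rw [orb_same hxy] at h
          simp only [Option.some.injEq, Sum.inl.injEq] at h
          subst h
          exact ⟨x, y, hxy, rfl, rfl⟩
      · rw [orb_in h1] at h
        simp at h
    · rw [orb_cr hij] at h
      simp at h
  · rw [orb_lr] at h
    simp at h
  · rw [orb_rl] at h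
    simp at h
  · cases h

/-- pairs of the second kind -/
theorem inv_ps {u v : VV μ A ε} {i : I} {s t : Fin (μ i)} {hst : s ≠ t} {b : Bool}
    (h : orb u v = some (.inr (.inl (ps i s t hst, b)))) :
    ∃ x y : A i, b = decide (x = y) ∧
      ((u = vt i s x ∧ v = vt i t y) ∨ (u = vt i t x ∧ v = vt i s y)) := by
  rcases u with ⟨i', s', x⟩ | l <;> rcases v with ⟨j', t', y⟩ | l'
  · by_cases hij : i' = j'
    · subst hij
      by_cases h1 : s' = t'
      · subst h1
        by_cases hxy : x = y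
        · subst hxy
          rw [orb_self] at h
          cases h
        · rw [orb_same hxy] at h
          simp at h
      · rw [orb_in h1] at h
        simp only [Option.some.injEq, Sum.inr.injEq, Sum.inl.injEq, Prod.mk.injEq, ps,
          Subtype.mk.injEq, Sym2.eq_iff] at h
        obtain ⟨⟨h2, h3⟩ | ⟨h2, h3⟩, h4⟩ := h
        · cases h2
          cases h3
          exact ⟨x, y, h4.symm, Or.inl ⟨rfl, rfl⟩⟩
        · cases h2
          cases h3
          exact ⟨x, y, h4.symm, Or.inr ⟨rfl, rfl⟩⟩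
    · rw [orb_cr hij] at h
      simp at h
  · rw [orb_lr] at h
    simp at h
  · rw [orb_rl] at h
    simp at h
  · cases h

/-- pairs of the third kind -/
theorem inv_pd {u v : VV μ A ε} {k l : KK μ} {hkl : k.1 ≠ l.1}
    (h : orb u v = some (.inr (.inr (.inl (pd k l hkl))))) :
    ∃ (x : A k.1) (y : A l.1),
      (u = vt k.1 k.2 x ∧ v = vt l.1 l.2 y) ∨ (u = vt l.1 l.2 y ∧ v = vt k.1 k.2 x) := by
  rcases u with ⟨i', s', x⟩ | l <;> rcases v with ⟨j', t', y⟩ | l'
  · by_cases hij : i' = j'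
    · subst hij
      by_cases h1 : s' = t'
      · subst h1
        by_cases hxy : x = y
        · subst hxy
          rw [orb_self] at h
          cases h
        · rw [orb_same hxy] at h
          simp at h
      · rw [orb_in h1] at h
        simp at h
    · rw [orb_cr hij] at h
      simp only [Option.some.injEq, Sum.inr.injEq, Sum.inl.injEq, pd,
        Subtype.mk.injEq, Sym2.eq_iff] at h
      obtain ⟨h2, h3⟩ | ⟨h2, h3⟩ := h
      · subst h2 h3
        exact ⟨x, y, Or.inl ⟨rfl, rfl⟩⟩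
      · subst h2 h3
        exact ⟨y, x, Or.inr ⟨rfl, rfl⟩⟩
  · rw [orb_lr] at h
    simp at h
  · rw [orb_rl] at h
    simp at h
  · cases h

/-- pairs of the fourth kind -/
theorem inv_fx {u v : VV μ A ε} {k : KK μ} {l : Fin ε}
    (h : orb u v = some (.inr (.inr (.inr (k, l))))) :
    ∃ x : A k.1, (u = vt k.1 k.2 x ∧ v = .inr l) ∨ (u = .inr l ∧ v = vt k.1 k.2 x) := by
  rcases u with ⟨i', s', x⟩ | l <;> rcases v with ⟨j', t', y⟩ | l'
  · by_cases hij : i' = j'
    · subst hij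
      by_cases h1 : s' = t'
      · subst h1
        by_cases hxy : x = y
        · subst hxy
          rw [orb_self] at h
          cases h
        · rw [orb_same hxy] at h
          simp at h
      · rw [orb_in h1] at h
        simp at h
    · rw [orb_cr hij] at h
      simp at h
  · rw [orb_lr] at h
    simp only [Option.some.injEq, Sum.inr.injEq, Prod.mk.injEq] at h
    obtain ⟨rfl, rfl⟩ := h
    exact ⟨x, Or.inl ⟨rfl, rfl⟩⟩
  · rw [orb_rl] at h
    simp only [Option.some.injEq, Sum.inr.injEq, Prod.mk.injEq] at h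
    obtain ⟨rfl, rfl⟩ := h
    exact ⟨y, Or.inr ⟨rfl, rfl⟩⟩
  · cases h

variable [∀ i, AddCommGroup (A i)]

theorem orb_exists [∀ i, Nontrivial (A i)] (j : JJ μ ε) : ∃ u v, orb (A := A) u v = some j := by
  rcases j with ⟨i, s⟩ | ⟨e, b⟩ | e | ⟨⟨i, s⟩, l⟩
  · obtain ⟨a, ha⟩ := exists_ne (0 : A i)
    exact ⟨_, _, orb_same (s := s) ha⟩
  · obtain ⟨i, s, t, h, rfl⟩ := ps_exists e
    obtain ⟨a, ha⟩ := exists_ne (0 : A i)
    cases b
    · refine ⟨vt i s a, vt i t 0, ?_⟩
      rw [orb_in h, decide_eq_false ha]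
    · refine ⟨vt i s 0, vt i t 0, ?_⟩
      rw [orb_in h, decide_eq_true rfl]
  · obtain ⟨⟨i, s⟩, ⟨j, t⟩, h, rfl⟩ := pd_exists e
    exact ⟨_, _, orb_cr h s t 0 0⟩
  · exact ⟨_, _, orb_lr i s 0 l⟩

/-- translation -/
def tr (a : ∀ i, A i) : Equiv.Perm (VV μ A ε) :=
  Equiv.sumCongr (Equiv.sigmaCongrRight fun i =>
    Equiv.prodCongr (Equiv.refl _) (Equiv.addRight (a i))) (Equiv.refl _)

/-- the automorphism -/
def cA (c : ∀ i, A i ≃+ A i) : Equiv.Perm (VV μ A ε) :=
  Equiv.sumCongr (Equiv.sigmaCongrRight fun i =>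
    Equiv.prodCongr (Equiv.refl _) (c i).toEquiv) (Equiv.refl _)

theorem tr_vt (a : ∀ i, A i) (i : I) (s : Fin (μ i)) (x : A i) :
    tr (ε := ε) a (vt i s x) = vt i s (x + a i) := rfl

theorem tr_inr (a : ∀ i, A i) (l : Fin ε) : tr (μ := μ) a (.inr l) = .inr l := rfl

theorem cA_vt (c : ∀ i, A i ≃+ A i) (i : I) (s : Fin (μ i)) (x : A i) :
    cA (ε := ε) c (vt i s x) = vt i s (c i x) := rfl

theorem cA_inr (c : ∀ i, A i ≃+ A i) (l : Fin ε) : cA (μ := μ) c (.inr l) = .inr l := rfl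

theorem cA_pow_vt (c : ∀ i, A i ≃+ A i) (k : ℕ) (i : I) (s : Fin (μ i)) (x : A i) :
    (cA (ε := ε) c ^ k) (vt i s x) = vt i s ((c i)^[k] x) := by
  induction k with
  | zero => rfl
  | succ k ih =>
    rw [pow_succ', Equiv.Perm.mul_apply, ih, cA_vt, Function.iterate_succ_apply']

theorem cA_pow_inr (c : ∀ i, A i ≃+ A i) (k : ℕ) (l : Fin ε) :
    (cA (μ := μ) c ^ k) (.inr l) = .inr l := by
  induction k with
  | zero => rfl
  | succ k ih => rw [pow_succ', Equiv.Perm.mul_apply, ih, cA_inr]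

theorem tr_comm (a b : ∀ i, A i) : tr (μ := μ) (ε := ε) a * tr b = tr b * tr a := by
  ext v : 1
  rcases v with ⟨i, s, x⟩ | l
  · simp only [Equiv.Perm.mul_apply, tr_vt]
    rw [add_right_comm]
  · rfl

theorem tr_pow_vt (a : ∀ i, A i) (k : ℕ) (i : I) (s : Fin (μ i)) (x : A i) :
    (tr (ε := ε) a ^ k) (vt i s x) = vt i s (x + k • a i) := by
  induction k with
  | zero => simp
  | succ k ih =>
    rw [pow_succ', Equiv.Perm.mul_apply, ih, tr_vt, succ_nsmul, add_assoc]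

theorem tr_pow_inr (a : ∀ i, A i) (k : ℕ) (l : Fin ε) :
    (tr (μ := μ) a ^ k) (.inr l) = .inr l := by
  induction k with
  | zero => rfl
  | succ k ih => rw [pow_succ', Equiv.Perm.mul_apply, ih, tr_inr]

theorem cA_conj (c : ∀ i, A i ≃+ A i) (a : ∀ i, A i) :
    (cA (μ := μ) (ε := ε) c)⁻¹ * tr a * cA c = tr fun i => (c i).symm (a i) := by
  rw [mul_assoc, inv_mul_eq_iff_eq_mul]
  ext v : 1
  rcases v with ⟨i, s, x⟩ | l
  · simp only [Equiv.Perm.mul_apply, tr_vt, cA_vt, map_add, AddEquiv.apply_symm_apply]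
  · rfl

theorem orb_tr (a : ∀ i, A i) (u v : VV μ A ε) : orb (tr a u) (tr a v) = orb u v := by
  rcases u with ⟨i, s, x⟩ | l <;> rcases v with ⟨j, t, y⟩ | l'
  · rw [tr_vt, tr_vt]
    by_cases hij : i = j
    · subst hij
      by_cases h : s = t
      · subst h
        by_cases hxy : x = y
        · subst hxy
          rw [orb_self, orb_self]
        · rw [orb_same hxy, orb_same fun h => hxy (add_right_cancel h)]
      · rw [orb_in h, orb_in h]
        simp only [add_left_inj]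
    · rw [orb_cr hij, orb_cr hij]
  · rfl
  · rfl
  · rfl

theorem orb_cA (c : ∀ i, A i ≃+ A i) (u v : VV μ A ε) :
    orb (cA c u) (cA c v) = orb u v := by
  rcases u with ⟨i, s, x⟩ | l <;> rcases v with ⟨j, t, y⟩ | l'
  · rw [cA_vt, cA_vt]
    by_cases hij : i = j
    · subst hij
      by_cases h : s = t
      · subst h
        by_cases hxy : x = y
        · subst hxy
          rw [orb_self, orb_self]
        · rw [orb_same hxy, orb_same fun h => hxy ((c i).injective h)]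
      · rw [orb_in h, orb_in h]
        simp only [EmbeddingLike.apply_eq_iff_eq]
    · rw [orb_cr hij, orb_cr hij]
  · rfl
  · rfl
  · rfl

/-- the group -/
abbrev Gr (c : ∀ i, A i ≃+ A i) : Subgroup (Equiv.Perm (VV μ A ε)) :=
  Subgroup.closure (insert (cA c) (Set.range tr))

theorem tr_mem (c : ∀ i, A i ≃+ A i) (a : ∀ i, A i) : tr a ∈ Gr (μ := μ) (ε := ε) c :=
  Subgroup.subset_closure (Set.mem_insert_of_mem _ (Set.mem_range_self a))

theorem cA_mem (c : ∀ i, A i ≃+ A i) : cA c ∈ Gr (μ := μ) (ε := ε) c :=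
  Subgroup.subset_closure (Set.mem_insert _ _)

theorem orb_Gr {c : ∀ i, A i ≃+ A i} {g : Equiv.Perm (VV μ A ε)}
    (hg : g ∈ Gr (μ := μ) (ε := ε) c) (u v : VV μ A ε) : orb (g u) (g v) = orb u v := by
  induction hg using Subgroup.closure_induction generalizing u v with
  | mem g hg =>
    rcases hg with rfl | ⟨a, rfl⟩
    · exact orb_cA c u v
    · exact orb_tr a u v
  | one => rfl
  | mul g h _ _ ihg ihh => rw [Equiv.Perm.mul_apply, Equiv.Perm.mul_apply, ihg, ihh]
  | inv g _ ih =>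
    have := ih (g⁻¹ u) (g⁻¹ v)
    rw [show g (g⁻¹ u) = u from g.apply_symm_apply u,
      show g (g⁻¹ v) = v from g.apply_symm_apply v] at this
    exact this.symm

/-- two points of `A i` are moved to two given points -/
theorem move {c : ∀ i, A i ≃+ A i}
    (htr : ∀ i, ∀ x y : A i, x ≠ 0 → y ≠ 0 → ∃ k : ℕ, (c i)^[k] x = y) {i : I}
    {x y x' y' : A i} (h : x = y ↔ x' = y') :
    ∃ g ∈ Gr (μ := μ) (ε := ε) c, (∀ s, g (vt i s x) = vt i s x') ∧
      (∀ s, g (vt i s y) = vt i s y') ∧ ∀ l, g (.inr l) = .inr l := by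
  by_cases hxy : x = y
  · have hxy' := h.1 hxy
    subst hxy hxy'
    refine ⟨tr (Pi.single i (x' - x)), tr_mem c _, ?_, ?_, fun l => rfl⟩
    · intro s
      rw [tr_vt, Pi.single_eq_same]
      congr 3
      abel
    · intro s
      rw [tr_vt, Pi.single_eq_same]
      congr 3
      abel
  · have hxy' : x' ≠ y' := fun h1 => hxy (h.2 h1)
    obtain ⟨k, hk⟩ := htr i (x - y) (x' - y') (sub_ne_zero.2 hxy) (sub_ne_zero.2 hxy')
    have hk2 : (c i)^[k] x - (c i)^[k] y = x' - y' := by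
      rw [← hk]
      have : ∀ k : ℕ, ∀ a b : A i, (c i)^[k] (a - b) = (c i)^[k] a - (c i)^[k] b := by
        intro k
        induction k with
        | zero => intro a b; rfl
        | succ k ih =>
          intro a b
          rw [Function.iterate_succ_apply, Function.iterate_succ_apply,
            Function.iterate_succ_apply, map_sub, ih]
      rw [this]
    refine ⟨tr (Pi.single i (x' - (c i)^[k] x)) * cA c ^ k,
      Subgroup.mul_mem _ (tr_mem c _) (Subgroup.pow_mem _ (cA_mem c) k), ?_, ?_, ?_⟩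
    · intro s
      rw [Equiv.Perm.mul_apply, cA_pow_vt, tr_vt, Pi.single_eq_same]
      congr 3
      abel
    · intro s
      rw [Equiv.Perm.mul_apply, cA_pow_vt, tr_vt, Pi.single_eq_same]
      congr 3
      have : y' = x' - (x' - y') := by abel
      rw [this, ← hk2]
      abel
    · intro l
      rw [Equiv.Perm.mul_apply, cA_pow_inr, tr_inr]

theorem orb_trans {c : ∀ i, A i ≃+ A i}
    (htr : ∀ i, ∀ x y : A i, x ≠ 0 → y ≠ 0 → ∃ k : ℕ, (c i)^[k] x = y)
    (j : JJ μ ε) (u v u' v' : VV μ A ε) (h : orb u v = some j) (h' : orb u' v' = some j) :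
    ∃ g ∈ Gr (μ := μ) (ε := ε) c, (g u = u' ∧ g v = v') ∨ (g u = v' ∧ g v = u') := by
  rcases j with ⟨i, s⟩ | ⟨e, b⟩ | e | ⟨⟨i, s⟩, l⟩
  · obtain ⟨x, y, hxy, rfl, rfl⟩ := inv_in h
    obtain ⟨x', y', hxy', rfl, rfl⟩ := inv_in h'
    obtain ⟨g, hg, h1, h2, -⟩ := move (μ := μ) (ε := ε) htr (x := x) (y := y) (x' := x')
      (y' := y') (by simp [hxy, hxy'])
    exact ⟨g, hg, Or.inl ⟨h1 _, h2 _⟩⟩
  · obtain ⟨i, s, t, hst, rfl⟩ := ps_exists e
    obtain ⟨x, y, hb, h1⟩ := inv_ps h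
    obtain ⟨x', y', hb', h2⟩ := inv_ps h'
    have hxy : x = y ↔ x' = y' := by
      rw [hb, decide_eq_decide] at hb'
      exact hb'
    have hxy2 : x = y ↔ y' = x' := hxy.trans eq_comm
    rcases h1 with ⟨rfl, rfl⟩ | ⟨rfl, rfl⟩ <;> rcases h2 with ⟨rfl, rfl⟩ | ⟨rfl, rfl⟩
    · obtain ⟨g, hg, h1, h2, -⟩ := move (μ := μ) (ε := ε) htr hxy
      exact ⟨g, hg, Or.inl ⟨h1 _, h2 _⟩⟩
    · obtain ⟨g, hg, h1, h2, -⟩ := move (μ := μ) (ε := ε) htr hxy2
      exact ⟨g, hg, Or.inr ⟨h1 _, h2 _⟩⟩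
    · obtain ⟨g, hg, h1, h2, -⟩ := move (μ := μ) (ε := ε) htr hxy2
      exact ⟨g, hg, Or.inr ⟨h1 _, h2 _⟩⟩
    · obtain ⟨g, hg, h1, h2, -⟩ := move (μ := μ) (ε := ε) htr hxy
      exact ⟨g, hg, Or.inl ⟨h1 _, h2 _⟩⟩
  · obtain ⟨⟨i, s⟩, ⟨j, t⟩, hij, rfl⟩ := pd_exists e
    obtain ⟨x, y, h1⟩ := inv_pd h
    obtain ⟨x', y', h2⟩ := inv_pd h'
    simp only at hij x y x' y' h1 h2
    have key : ∃ g ∈ Gr (μ := μ) (ε := ε) c, g (vt i s x) = vt i s x' ∧
        g (vt j t y) = vt j t y' := by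
      refine ⟨tr (Pi.single i (x' - x) + Pi.single j (y' - y)), tr_mem c _, ?_, ?_⟩
      · rw [tr_vt, Pi.add_apply, Pi.single_eq_same, Pi.single_eq_of_ne hij]
        congr 3
        abel
      · rw [tr_vt, Pi.add_apply, Pi.single_eq_same, Pi.single_eq_of_ne (Ne.symm hij)]
        congr 3
        abel
    obtain ⟨g, hg, g1, g2⟩ := key
    rcases h1 with ⟨rfl, rfl⟩ | ⟨rfl, rfl⟩ <;> rcases h2 with ⟨rfl, rfl⟩ | ⟨rfl, rfl⟩
    · exact ⟨g, hg, Or.inl ⟨g1, g2⟩⟩
    · exact ⟨g, hg, Or.inr ⟨g1, g2⟩⟩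
    · exact ⟨g, hg, Or.inr ⟨g2, g1⟩⟩
    · exact ⟨g, hg, Or.inl ⟨g2, g1⟩⟩
  · obtain ⟨x, h1⟩ := inv_fx h
    obtain ⟨x', h2⟩ := inv_fx h'
    simp only at x x' h1 h2
    obtain ⟨g, hg, g1, -, g2⟩ := move (μ := μ) (ε := ε) htr (x := x) (y := x) (x' := x')
      (y' := x') (by simp)
    rcases h1 with ⟨rfl, rfl⟩ | ⟨rfl, rfl⟩ <;> rcases h2 with ⟨rfl, rfl⟩ | ⟨rfl, rfl⟩
    · exact ⟨g, hg, Or.inl ⟨g1 _, g2 _⟩⟩
    · exact ⟨g, hg, Or.inr ⟨g1 _, g2 _⟩⟩
    · exact ⟨g, hg, Or.inr ⟨g2 _, g1 _⟩⟩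
    · exact ⟨g, hg, Or.inl ⟨g2 _, g1 _⟩⟩

/-- the graph of a configuration -/
abbrev GC (A : I → Type) [∀ i, DecidableEq (A i)] (χ : JJ μ ε → Bool) :
    SimpleGraph (VV μ A ε) := GR orb orb_symm orb_self χ

theorem relationC [Fintype I] [∀ i, Fintype (A i)] [∀ i, Nontrivial (A i)] (hε : ε ≤ 1) {p : ℕ}
    [Fact p.Prime] (htor : ∀ i, ∀ x : A i, p • x = 0) (c : ∀ i, A i ≃+ A i)
    (htr : ∀ i, ∀ x y : A i, x ≠ 0 → y ≠ 0 → ∃ k : ℕ, (c i)^[k] x = y) {n q : ℕ}
    {Q : SimpleGraph (Fin n) → Prop} (hQ : GP n q Q) (hV : Fintype.card (VV μ A ε) = n)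
    (hq : q < n.choose 2) :
    ∑ χ : JJ μ ε → Bool, sgn χ * bit (PV Q (VV μ A ε) (GC A χ)) = 0 := by
  refine rel_orb hQ (V := VV μ A ε) hV p tr (cA c) tr_comm ?_ ?_ orb
    orb_symm orb_self (orb_ne_none hε) orb_tr (orb_cA c) orb_exists
    (orb_trans htr) hq
  · intro a
    ext v : 1
    rcases v with ⟨i, s, x⟩ | l
    · rw [tr_pow_vt, htor, add_zero]
      rfl
    · rw [tr_pow_inr]
      rfl
  · intro a
    rw [cA_conj]
    exact Subgroup.subset_closure (Set.mem_range_self _)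

end Pool.Agent.H512.BT
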