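import Pool.Agent.H512.BT.Rec
import Pool.Agent.H512.BD.Rad

set_option autoImplicit false
set_option linter.unusedSectionVars false

/-!
MP_257582_lc. Several groups: bounded radius.
-/

namespace Pool.Agent.H512.BT

open Finset
open Pool.Agent.H512.BD (RadLE rad_bound reach_const)
open Pool.Agent.TH669.KP (GR GR_adj sgn bit bit_pos bit_neg bit_congr toggle_zero sum_prod_fun)

variable {I : Type} {μ : I → ℕ} {A : I → Type} {ε : ℕ}

/-- the second coordinate -/
def FS : VV μ A ε → Option (Σ i, A i)
  | .inl ⟨i, (_, x)⟩ => some ⟨i, x⟩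
  | .inr _ => none

variable [DecidableEq I] [∀ i, DecidableEq (A i)] [∀ i, AddCommGroup (A i)]

theorem GC_rad [Fintype I] [∀ i, Fintype (A i)] (hA : ∀ i, 3 ≤ Fintype.card (A i) ∨ μ i ≤ 1)
    (hε : ε ≤ 1) (χ : JJ μ ε → Bool) : RadLE (max (∑ i, μ i) 3) (GC A χ) := by
  classical
  have hthird : ∀ i, 3 ≤ Fintype.card (A i) → ∀ x y : A i, ∃ z, z ≠ x ∧ z ≠ y := by
    intro i hi x y
    by_contra hcon
    push Not at hcon
    have h1 : (univ : Finset (A i)) ⊆ {x, y} := by
      intro z _
      rw [Finset.mem_insert, Finset.mem_singleton]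
      by_cases h : z = x
      · exact Or.inl h
      · exact Or.inr (hcon z h)
    have h2 := (Finset.card_le_card h1).trans Finset.card_le_two
    rw [Finset.card_univ] at h2
    omega
  have hcard : Fintype.card (KK μ) = ∑ i, μ i := by
    rw [Fintype.card_sigma]
    simp
  let e : KK μ ≃ Fin (∑ i, μ i) := Fintype.equivFinOfCardEq hcard
  let part : VV μ A ε → Fin (∑ i, μ i) ⊕ Fin ε :=
    fun v => Sum.map (fun w : Σ i, Fin (μ i) × A i => e ⟨w.1, w.2.1⟩) id v
  have hpart : ∀ i s x w, part w = part (vt i s x) → ∃ y, w = vt i s y := by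
    rintro i s x (⟨j, t, y⟩ | l) h
    · simp only [part, Sum.map_inl, Sum.inl.injEq, e.injective.eq_iff] at h
      cases h
      exact ⟨y, rfl⟩
    · cases h
  have hpart2 : ∀ l w, part w = part (.inr l) → w = .inr l := by
    rintro l (⟨j, t, y⟩ | l') h
    · cases h
    · simp only [part, Sum.map_inr, id, Sum.inr.injEq] at h
      rw [h]
  refine rad_bound hε part ?_ ?_ ?_
  · rintro (⟨i, s, x⟩ | l) v h
    · obtain ⟨y, rfl⟩ := hpart i s x v h.symm
      refine ⟨tr (Pi.single i (y - x)), ?_, ?_, ?_⟩
      · rw [tr_vt, Pi.single_eq_same]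
        congr 3
        abel
      · intro a b
        exact GC_Gr (c := fun i => AddEquiv.refl (A i)) (tr_mem _ _) χ a b
      · rintro (⟨i, s, x⟩ | i)
        · rfl
        · rfl
    · obtain rfl := hpart2 l v h.symm
      exact ⟨Equiv.refl _, rfl, fun a b => Iff.rfl, fun a => rfl⟩
  · rintro i (⟨j, s, x⟩ | l) (⟨j', t, y⟩ | l') h h'
    all_goals try cases h
    all_goals try cases h'
    rfl
  · intro u
    have hadj : ∀ (j : JJ μ ε), χ j = true → ∀ a b : VV μ A ε, orb a b = some j →
        (GC A χ).edist a b = 1 := fun j hj a b hab =>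
      SimpleGraph.edist_eq_one_iff_adj.2 ((GR_adj _ _ _ _ _ _).2 ⟨j, hab, hj⟩)
    have htwo : ∀ a b c : VV μ A ε, (GC A χ).edist a b = 1 → (GC A χ).edist b c = 1 →
        (GC A χ).edist a c ≤ 2 := by
      intro a b c h3 h4
      refine (SimpleGraph.edist_triangle (v := b)).trans ?_
      rw [h3, h4]
      norm_num
    by_cases h : ∃ j, χ j = true ∧ (∀ e, j ≠ .inr (.inl (e, true))) ∧
        ∃ a b : VV μ A ε, (GC A χ).Reachable u a ∧ orb a b = some j
    · right
      obtain ⟨j, hχ, hjb, a, b, ha, hab⟩ := h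
      have hhop : ∀ (a b c : VV μ A ε), orb a c = some j → orb c b = some j →
          (GC A χ).edist a b ≤ 2 := fun a b c h3 h4 =>
        htwo _ c _ (hadj _ hχ _ _ h3) (hadj _ hχ _ _ h4)
      have hadj2 : (GC A χ).Adj a b := (GR_adj _ _ _ _ _ _).2 ⟨j, hab, hχ⟩
      rcases j with ⟨i, s⟩ | ⟨e', b'⟩ | e' | ⟨⟨i, s⟩, l⟩
      · left
        obtain ⟨x, y, hxy, rfl, rfl⟩ := inv_in hab
        refine ⟨_, ha, fun v hv => ?_⟩
        obtain ⟨z, rfl⟩ := hpart _ _ _ _ hv
        by_cases hxz : x = z
        · subst hxz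
          simp [SimpleGraph.edist_self]
        · exact (hadj _ hχ _ _ (orb_same hxz)).le
      · right
        obtain ⟨i, s, t, hst, rfl⟩ := ps_exists e'
        have hi3 : 3 ≤ Fintype.card (A i) := by
          rcases hA i with h3 | h3
          · exact h3
          · exfalso
            apply hst
            apply Fin.ext
            have := s.2
            have := t.2
            omega
        cases b' with
        | true => exact absurd rfl (hjb _)
        | false =>
          have hc : ∀ s t (hst : s ≠ t) (x y : A i), x ≠ y →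
              ∀ j', j' = (.inr (.inl (ps i s t hst, false)) : JJ μ ε) → χ j' = true →
              ∀ v, part v = part (vt i s x) → (GC A χ).edist (vt i s x) v ≤ 2 := by
            intro s t hst x y hxy j' hj' hχ' v hv
            obtain ⟨z, rfl⟩ := hpart _ _ _ _ hv
            obtain ⟨w, hwx, hwz⟩ := hthird i hi3 x z
            refine htwo _ (vt i t w) _ (hadj _ hχ' _ _ ?_) (hadj _ hχ' _ _ ?_)
            · rw [orb_in hst, hj', decide_eq_false (Ne.symm hwx)]
            · rw [orb_symm, orb_in hst, hj', decide_eq_false (Ne.symm hwz)]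
          obtain ⟨x, y, hxy, h3⟩ := inv_ps hab
          have hxy' : x ≠ y := by simpa using hxy.symm
          have hpst : ∀ x y, part (vt i s x) ≠ part (vt i t y) := by
            intro x y h4
            obtain ⟨z, hz⟩ := hpart _ _ _ _ h4
            simp only [Sum.inl.injEq, Sigma.mk.injEq, heq_eq_eq, Prod.mk.injEq, true_and] at hz
            exact hst hz.1
          rcases h3 with ⟨rfl, rfl⟩ | ⟨rfl, rfl⟩
          · exact ⟨_, _, ha, hadj2, hpst _ _, hc s t hst x y hxy' _ rfl hχ,
              hc t s hst.symm y x hxy'.symm _ (by rw [ps_swap]) hχ⟩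
          · exact ⟨_, _, ha, hadj2, (hpst _ _).symm,
              hc t s hst.symm x y hxy' _ (by rw [ps_swap]) hχ,
              hc s t hst y x hxy'.symm _ rfl hχ⟩
      · right
        obtain ⟨⟨i, s⟩, ⟨j, t⟩, hij, rfl⟩ := pd_exists e'
        obtain ⟨x, y, h3⟩ := inv_pd hab
        simp only at hij x y h3
        have hpst : ∀ x y, part (vt i s x) ≠ part (vt j t y) := by
          intro x y h4
          obtain ⟨z, hz⟩ := hpart _ _ _ _ h4
          simp only [Sum.inl.injEq] at hz
          exact hij (congrArg Sigma.fst hz)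
        have e1 : ∀ v, part v = part (vt i s x) → (GC A χ).edist (vt i s x) v ≤ 2 := by
          intro v hv
          obtain ⟨z, rfl⟩ := hpart _ _ _ _ hv
          exact hhop _ _ (vt j t y) (orb_cr hij _ _ _ _) (by rw [orb_symm, orb_cr hij])
        have e2 : ∀ v, part v = part (vt j t y) → (GC A χ).edist (vt j t y) v ≤ 2 := by
          intro v hv
          obtain ⟨z, rfl⟩ := hpart _ _ _ _ hv
          exact hhop _ _ (vt i s x) (by rw [orb_symm, orb_cr hij]) (orb_cr hij _ _ _ _)
        rcases h3 with ⟨rfl, rfl⟩ | ⟨rfl, rfl⟩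
        · exact ⟨_, _, ha, hadj2, hpst _ _, e1, e2⟩
        · exact ⟨_, _, ha, hadj2, (hpst _ _).symm, e2, e1⟩
      · right
        obtain ⟨x, h3⟩ := inv_fx hab
        simp only at x h3
        have hpst : part (vt i s x) ≠ part (.inr l) := by
          intro h4
          cases h4
        have e1 : ∀ v, part v = part (vt i s x) → (GC A χ).edist (vt i s x) v ≤ 2 := by
          intro v hv
          obtain ⟨z, rfl⟩ := hpart _ _ _ _ hv
          exact hhop _ _ (.inr l) rfl rfl
        have e2 : ∀ v, part v = part (.inr l) → (GC A χ).edist (.inr l) v ≤ 2 := by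
          intro v hv
          obtain rfl := hpart2 _ _ hv
          simp [SimpleGraph.edist_self]
        rcases h3 with ⟨rfl, rfl⟩ | ⟨rfl, rfl⟩
        · exact ⟨_, _, ha, hadj2, hpst, e1, e2⟩
        · exact ⟨_, _, ha, hadj2, hpst.symm, e2, e1⟩
    · left
      have hF : ∀ a b : VV μ A ε, (GC A χ).Reachable u a → (GC A χ).Adj a b →
          FS a = FS b := by
        intro a b ha hab
        obtain ⟨j, hj, hχ⟩ := (GR_adj _ _ _ _ _ _).1 hab
        have hjb : ∃ e, j = .inr (.inl (e, true)) := by
          by_contra hcon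
          push Not at hcon
          exact h ⟨j, hχ, hcon, a, b, ha, hj⟩
        obtain ⟨e', rfl⟩ := hjb
        obtain ⟨i, s, t, hst, rfl⟩ := ps_exists e'
        obtain ⟨x, y, hxy, h3⟩ := inv_ps hj
        have hxy' : x = y := by simpa using hxy.symm
        subst hxy'
        rcases h3 with ⟨rfl, rfl⟩ | ⟨rfl, rfl⟩
        · rfl
        · rfl
      intro v w hv hw hvw
      have e1 := reach_const hF hv
      have e2 := reach_const hF hw
      rcases v with ⟨i, s, x⟩ | l
      · obtain ⟨y, rfl⟩ := hpart _ _ _ _ hvw.symm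
        have hxy : x = y := by simpa [FS] using e1.symm.trans e2
        rw [hxy]
      · exact (hpart2 _ _ hvw.symm).symm

end Pool.Agent.H512.BT
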