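import Pool.Agent.H512.BT.Model
import Pool.Agent.H512.BD.Diam
import Pool.Agent.H512.BD.Rec

set_option autoImplicit false
set_option linter.unusedSectionVars false

/-!
MP_257582_lc. Several groups: bounded diameter, recursive configurations.
-/

namespace Pool.Agent.H512.BT

open Finset
open Pool.Agent.H512.BD (mob zetaL geod edist_aut bit_forall Ch)
open Pool.Agent.TH669.KP (GR GR_adj sgn bit bit_pos bit_neg bit_congr toggle_zero sum_prod_fun)

variable {I : Type} {μ : I → ℕ} {A : I → Type} {ε : ℕ}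

section diam

variable [DecidableEq I] [∀ i, DecidableEq (A i)] [∀ i, AddCommGroup (A i)]

theorem GC_Gr {c : ∀ i, A i ≃+ A i} {g : Equiv.Perm (VV μ A ε)}
    (hg : g ∈ Gr (μ := μ) (ε := ε) c) (χ : JJ μ ε → Bool) (u v : VV μ A ε) :
    (GC A χ).Adj (g u) (g v) ↔ (GC A χ).Adj u v := by
  rw [GR_adj, GR_adj, orb_Gr hg]

theorem diam_bound [Fintype I] (c : ∀ i, A i ≃+ A i)
    (htr : ∀ i, ∀ x y : A i, x ≠ 0 → y ≠ 0 → ∃ k : ℕ, (c i)^[k] x = y)
    (χ : JJ μ ε → Bool) {u v : VV μ A ε} (h : (GC A χ).Reachable u v) :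
    (GC A χ).edist u v + 1 ≤ ((2 * ∑ i, μ i + ε : ℕ) : ℕ∞) := by
  have hcard : Fintype.card (KK μ) = ∑ i, μ i := by
    rw [Fintype.card_sigma]
    simp
  let e : KK μ ≃ Fin (∑ i, μ i) := Fintype.equivFinOfCardEq hcard
  refine geod (fun v => Sum.map (fun w : Σ i, Fin (μ i) × A i => e ⟨w.1, w.2.1⟩) id v) ?_ ?_ h
  · rintro k (⟨i₁, s₁, x⟩ | l) (⟨i₂, s₂, y⟩ | l) (⟨i₃, s₃, x'⟩ | l) (⟨i₄, s₄, y'⟩ | l) h1 h2 h3
      h4 h5 h6
    all_goals try cases h1
    all_goals try cases h2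
    all_goals try cases h3
    all_goals try cases h4
    simp only [Sum.map_inl, Sum.inl.injEq, e.injective.eq_iff] at h2 h3 h4
    cases h2
    cases h3
    cases h4
    have hxy : x ≠ y := fun h => h5 (by rw [h])
    have hxy' : x' ≠ y' := fun h => h6 (by rw [h])
    obtain ⟨g, hg, g1, g2, -⟩ := move (μ := μ) (ε := ε) htr (x := x) (y := y) (x' := x')
      (y' := y') (by simp [hxy, hxy'])
    have := edist_aut g (GC_Gr hg χ) (vt i₁ s₁ x) (vt i₁ s₁ y)
    rw [g1, g2] at this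
    exact this.symm
  · rintro i (⟨i₁, s₁, x⟩ | l₁) (⟨i₂, s₂, y⟩ | l₂) h1 h2
    all_goals try cases h1
    all_goals try cases h2
    rfl

end diam

/-- the weight of a recursive configuration -/
def wt [Fintype I] (g : ∀ k : KK μ, Ch k.2) : ℤ := ∏ k, (if g k = none then 1 else -1)

/-- the pairs of a recursive configuration -/
def lk (A : I → Type) (ε : ℕ) (g : ∀ k : KK μ, Ch k.2) (u v : VV μ A ε) : Prop :=
  ∃ (i : I) (s : Fin (μ i)) (x : A i), u = vt i s x ∧
    ((g ⟨i, s⟩ = some none ∧ ∃ y, v = vt i s y) ∨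
      ∃ t : {t : Fin (μ i) // t < s}, g ⟨i, s⟩ = some (some t) ∧ v = vt i t.1 x)

/-- the partition of a recursive configuration -/
def Pg (A : I → Type) (ε : ℕ) (g : ∀ k : KK μ, Ch k.2) : Setoid (VV μ A ε) :=
  Relation.EqvGen.setoid (lk A ε g)

/-- the copy `s` of `A i` is contained in a class -/
def Wh (ρ : Setoid (VV μ A ε)) (i : I) (s : Fin (μ i)) : Prop := ∀ x y, ρ (vt i s x) (vt i s y)

/-- corresponding elements of the copies `s` and `t` are related -/
def Ln (ρ : Setoid (VV μ A ε)) (i : I) (s t : Fin (μ i)) : Prop :=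
  ∀ x, ρ (vt i s x) (vt i t x)

/-- the condition for one copy -/
def cond (ρ : Setoid (VV μ A ε)) (i : I) (s : Fin (μ i)) : Ch s → Prop
  | none => True
  | some none => Wh ρ i s
  | some (some t) => Ln ρ i s t.1

theorem Pg_le {g : ∀ k : KK μ, Ch k.2} {ρ : Setoid (VV μ A ε)} :
    Pg A ε g ≤ ρ ↔ ∀ k : KK μ, cond ρ k.1 k.2 (g k) := by
  constructor
  · rintro h ⟨i, s⟩
    have h1 : ∀ u v, lk A ε g u v → ρ u v := fun u v huv => h (Relation.EqvGen.rel _ _ huv)
    rcases hg : g ⟨i, s⟩ with _ | _ | t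
    · trivial
    · intro x y
      exact h1 _ _ ⟨i, s, x, rfl, Or.inl ⟨hg, y, rfl⟩⟩
    · intro x
      exact h1 _ _ ⟨i, s, x, rfl, Or.inr ⟨t, hg, rfl⟩⟩
  · intro h
    refine Setoid.eqvGen_le ?_
    rintro u v ⟨i, s, x, rfl, ⟨hg, y, rfl⟩ | ⟨t, hg, rfl⟩⟩
    · have h1 := h ⟨i, s⟩
      rw [hg] at h1
      exact h1 x y
    · have h1 := h ⟨i, s⟩
      rw [hg] at h1
      exact h1 x

theorem zetaR_prod [Fintype I] [DecidableEq I] (ρ : Setoid (VV μ A ε)) :
    ∑ g : ∀ k : KK μ, Ch k.2, wt g * bit (Pg A ε g ≤ ρ) =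
      ∏ k : KK μ, (1 - bit (Wh ρ k.1 k.2) -
        ∑ t : {t : Fin (μ k.1) // t < k.2}, bit (Ln ρ k.1 k.2 t.1)) := by
  classical
  have h1 : ∀ g : ∀ k : KK μ, Ch k.2, wt g * bit (Pg A ε g ≤ ρ) =
      ∏ k, ((if g k = none then (1 : ℤ) else -1) * bit (cond ρ k.1 k.2 (g k))) := by
    intro g
    rw [bit_congr Pg_le, bit_forall, wt, Finset.prod_mul_distrib]
  rw [Finset.sum_congr rfl fun g _ => h1 g,
    sum_prod_fun (fun (k : KK μ) (c : Ch k.2) => (if c = none then (1 : ℤ) else -1) *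
      bit (cond ρ k.1 k.2 c))]
  refine Finset.prod_congr rfl fun k _ => ?_
  rw [Fintype.sum_option, Fintype.sum_option, if_pos rfl, if_neg (by simp)]
  have h2 : ∀ t : {t : Fin (μ k.1) // t < k.2},
      (if (some (some t) : Ch k.2) = none then (1 : ℤ) else -1) *
      bit (cond ρ k.1 k.2 (some (some t))) = - bit (Ln ρ k.1 k.2 t.1) := by
    intro t
    rw [if_neg (by simp)]
    show -1 * bit (Ln ρ k.1 k.2 t.1) = _
    ring
  rw [Finset.sum_congr rfl fun t _ => h2 t, Finset.sum_neg_distrib]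
  have h3 : bit (cond ρ k.1 k.2 none) = 1 := bit_pos trivial
  rw [h3]
  show 1 * 1 + (-1 * bit (Wh ρ k.1 k.2) + _) = _
  ring

theorem zetaR [Fintype I] [DecidableEq I] [∀ i, DecidableEq (A i)] [∀ i, Fintype (A i)]
    [∀ i, Nonempty (A i)]
    (hA : ∀ i, 3 ≤ Fintype.card (A i) ∨ μ i ≤ 1) (ρ : Setoid (VV μ A ε)) :
    ∑ g : ∀ k : KK μ, Ch k.2, wt g * bit (Pg A ε g ≤ ρ) =
      bit (∀ j : JJ μ ε, ∃ u v, orb u v = some j ∧ ¬ ρ u v) := by
  classical
  rw [zetaR_prod]
  have hthird : ∀ i, 3 ≤ Fintype.card (A i) → ∀ x y : A i, ∃ z, z ≠ x ∧ z ≠ y := by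
    intro i hi x y
    by_contra hcon
    push Not at hcon
    have h1 : (univ : Finset (A i)) ⊆ {x, y} := by
      intro z _
      rw [Finset.mem_insert, Finset.mem_singleton]
      by_cases h : z = x
      · exact Or.inl h
      · exact Or.inr (hcon z h)
    have h2 := (Finset.card_le_card h1).trans Finset.card_le_two
    rw [Finset.card_univ] at h2
    omega
  by_cases h : ∀ j : JJ μ ε, ∃ u v, orb u v = some j ∧ ¬ ρ u v
  · rw [bit_pos h]
    refine Finset.prod_eq_one fun k _ => ?_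
    obtain ⟨i, s⟩ := k
    have h1 : ¬ Wh ρ i s := by
      intro hW
      obtain ⟨u, v, huv, hρ⟩ := h (.inl ⟨i, s⟩)
      obtain ⟨x, y, -, rfl, rfl⟩ := inv_in huv
      exact hρ (hW x y)
    have h2 : ∀ t : {t : Fin (μ i) // t < s}, ¬ Ln ρ i s t.1 := by
      intro t hL
      obtain ⟨u, v, huv, hρ⟩ := h (.inr (.inl (ps i s t.1 (ne_of_gt t.2), true)))
      obtain ⟨x, y, hxy, h3⟩ := inv_ps huv
      have hxy' : x = y := by simpa using hxy.symm
      subst hxy'
      rcases h3 with ⟨rfl, rfl⟩ | ⟨rfl, rfl⟩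
      · exact hρ (hL x)
      · exact hρ (ρ.symm (hL x))
    rw [bit_neg h1, Finset.sum_eq_zero fun t _ => bit_neg (h2 t)]
    ring
  · rw [bit_neg h]
    push Not at h
    obtain ⟨j, hj⟩ := h
    have h1 : ∃ i s, Wh ρ i s ∨ ∃ t, t < s ∧ Ln ρ i s t := by
      rcases j with ⟨i, s⟩ | ⟨e, b⟩ | e | ⟨⟨i, s⟩, l⟩
      · refine ⟨i, s, Or.inl fun x y => ?_⟩
        by_cases hxy : x = y
        · subst hxy
          exact ρ.refl _
        · exact hj _ _ (orb_same hxy)
      · obtain ⟨i, s, t, hst, rfl⟩ := ps_exists e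
        have hi3 : 3 ≤ Fintype.card (A i) := by
          rcases hA i with h3 | h3
          · exact h3
          · exfalso
            apply hst
            apply Fin.ext
            have := s.2
            have := t.2
            omega
        cases b
        · refine ⟨i, s, Or.inl fun x y => ?_⟩
          obtain ⟨z, hzx, hzy⟩ := hthird i hi3 x y
          have e1 := hj (vt i s x) (vt i t z) (by
            rw [orb_in hst, decide_eq_false (Ne.symm hzx)])
          have e2 := hj (vt i s y) (vt i t z) (by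
            rw [orb_in hst, decide_eq_false (Ne.symm hzy)])
          exact ρ.trans e1 (ρ.symm e2)
        · have e1 : Ln ρ i s t := fun x => hj _ _ (by rw [orb_in hst, decide_eq_true rfl])
          rcases lt_or_gt_of_ne hst with h2 | h2
          · exact ⟨i, t, Or.inr ⟨s, h2, fun x => ρ.symm (e1 x)⟩⟩
          · exact ⟨i, s, Or.inr ⟨t, h2, e1⟩⟩
      · obtain ⟨⟨i, s⟩, ⟨j, t⟩, hij, rfl⟩ := pd_exists e
        simp only at hij
        refine ⟨i, s, Or.inl fun x y => ?_⟩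
        obtain ⟨z⟩ : Nonempty (A j) := inferInstance
        exact ρ.trans (hj _ _ (orb_cr hij s t x z)) (ρ.symm (hj _ _ (orb_cr hij s t y z)))
      · refine ⟨i, s, Or.inl fun x y => ?_⟩
        exact ρ.trans (hj _ _ (orb_lr i s x l)) (ρ.symm (hj _ _ (orb_lr i s y l)))
    obtain ⟨i, hi⟩ := h1
    obtain ⟨s, hs, hmin⟩ :=
      (wellFounded_lt : WellFounded ((· < ·) : Fin (μ i) → Fin (μ i) → Prop)).has_min
      {s | Wh ρ i s ∨ ∃ t, t < s ∧ Ln ρ i s t} hi
    refine Finset.prod_eq_zero (Finset.mem_univ (⟨i, s⟩ : KK μ)) ?_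
    show 1 - bit (Wh ρ i s) - ∑ t : {t : Fin (μ i) // t < s}, bit (Ln ρ i s t.1) = 0
    by_cases hW : Wh ρ i s
    · rw [bit_pos hW, Finset.sum_eq_zero]
      · ring
      · intro t _
        refine bit_neg fun hL => hmin t.1 (Or.inl fun x y => ?_) t.2
        exact ρ.trans (ρ.symm (hL x)) (ρ.trans (hW x y) (hL y))
    · rcases hs with hs | ⟨t, hts, hL⟩
      · exact absurd hs hW
      · rw [bit_neg hW, Finset.sum_eq_single (⟨t, hts⟩ : {t : Fin (μ i) // t < s}), bit_pos hL]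
        · ring
        · rintro ⟨t', hts'⟩ _ hne
          refine bit_neg fun hL' => ?_
          have hne' : t' ≠ t := fun h3 => hne (Subtype.ext h3)
          have hLL : Ln ρ i t' t := fun x => ρ.trans (ρ.symm (hL' x)) (hL x)
          rcases lt_or_gt_of_ne hne' with h3 | h3
          · exact hmin t (Or.inr ⟨t', h3, fun x => ρ.symm (hLL x)⟩) hts
          · exact hmin t' (Or.inr ⟨t, h3, hLL⟩) hts'
        · intro h3
          exact absurd (Finset.mem_univ _) h3

/-- signed sums over configurations are weighted sums over recursive configurations -/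
theorem rec_sum [Fintype I] [DecidableEq I] [∀ i, DecidableEq (A i)] [∀ i, Fintype (A i)]
    [∀ i, Nonempty (A i)]
    (hA : ∀ i, 3 ≤ Fintype.card (A i) ∨ μ i ≤ 1) (Φ : Setoid (VV μ A ε) → ℤ) :
    ∑ χ : JJ μ ε → Bool, sgn χ * Φ (GC A χ).reachableSetoid =
      ∑ g : ∀ k : KK μ, Ch k.2, wt g * Φ (Pg A ε g) := by
  refine mob _ _ _ _ (fun ρ => ?_) Φ
  rw [zetaR hA ρ]
  exact zetaL orb orb_symm orb_self ρ

end Pool.Agent.H512.BT
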